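import Pool.Agent.Run7.h432.AC.Stm

/-!
# MP_4b1745_al: piece GEN
-/

set_option autoImplicit false

namespace Run7.h669.AC

open MvPolynomial Run7.h432.AC

lemma pderiv_facts {σ E : Type} [Field E] [CharZero E] {A : MvPolynomial σ E} {θ : σ}
    (hθ : θ ∈ A.vars) : pderiv θ A ≠ 0 ∧ degreeOf θ (pderiv θ A) < degreeOf θ A := by
  classical
  obtain ⟨m, hm, hmθ⟩ := (mem_vars_iff_mem_support θ).mp hθ
  have hmθ' : m θ ≠ 0 := Finsupp.mem_support_iff.mp hmθ
  have hle : m θ ≤ degreeOf θ A := monomial_le_degreeOf θ hm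
  have hsub : m - Finsupp.single θ 1 + Finsupp.single θ 1 = m := by
    refine tsub_add_cancel_of_le ?_
    rw [Finsupp.single_le_iff]
    omega
  constructor
  · intro h0
    have h1 : coeff (m - Finsupp.single θ 1) (pderiv θ A) = 0 := by rw [h0, coeff_zero]
    rw [coeff_pderiv, hsub] at h1
    rcases mul_eq_zero.mp h1 with h2 | h2
    · exact (mem_support_iff.mp hm) h2
    · have h3 : (((m - Finsupp.single θ 1 : σ →₀ ℕ) θ + 1 : ℕ) : E) = 0 := by exact_mod_cast h2
      exact absurd (Nat.cast_eq_zero.mp h3) (Nat.succ_ne_zero _)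
  · rw [degreeOf_lt_iff (by omega)]
    intro n hn
    have h1 : coeff n (pderiv θ A) ≠ 0 := mem_support_iff.mp hn
    rw [coeff_pderiv] at h1
    have h2 : n + Finsupp.single θ 1 ∈ A.support :=
      mem_support_iff.mpr (left_ne_zero_of_mul h1)
    have h3 := monomial_le_degreeOf θ h2
    simp only [Finsupp.add_apply, Finsupp.single_eq_same] at h3
    omega

lemma not_dvd {σ E : Type} [Field E] [CharZero E] {A : MvPolynomial σ E} {θ : σ}
    (hθ : θ ∈ A.vars) : ¬ A ∣ pderiv θ A := by
  obtain ⟨h0, h1⟩ := pderiv_facts hθ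
  rintro ⟨B, hB⟩
  have hA0 : A ≠ 0 := by
    rintro rfl
    exact h0 (by simp)
  have hB0 : B ≠ 0 := by
    rintro rfl
    exact h0 (by rw [hB, mul_zero])
  rw [hB, degreeOf_mul_eq hA0 hB0] at h1
  omega

/-- An extension of `E` algebraic over the subalgebra generated by `x` embeds in an algebraically
closed field with as many algebraically independent elements. -/
lemma embed {σ E K L : Type} [Field E] [Field K] [Field L] [IsAlgClosed L] [Algebra E K]
    [Algebra E L] (x : σ → K) [Algebra.IsAlgebraic (Algebra.adjoin E (Set.range x)) K]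
    (y : σ → L) (hy : AlgebraicIndependent E y) : Nonempty (K →ₐ[E] L) := by
  have : FaithfulSMul E K :=
    (faithfulSMul_iff_algebraMap_injective E K).mpr (algebraMap E K).injective
  obtain ⟨t, ht, hb⟩ := exists_isTranscendenceBasis_subset (R := E) (Set.range x)
  choose j hj using fun u : t => ht u.2
  have hjinj : Function.Injective j := by
    intro u v huv
    apply Subtype.ext
    rw [← hj u, ← hj v, huv]
  have hXL : AlgebraicIndependent E (y ∘ j) := hy.comp j hjinj
  let g : Algebra.adjoin E (Set.range ((↑) : t → K)) →ₐ[E] L :=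
    (aeval (y ∘ j)).comp hb.1.aevalEquiv.symm.toAlgHom
  have hg : Function.Injective g :=
    Function.Injective.comp (g := aeval (y ∘ j)) hXL hb.1.aevalEquiv.symm.injective
  let inst : Algebra (Algebra.adjoin E (Set.range ((↑) : t → K))) L := g.toRingHom.toAlgebra
  have : FaithfulSMul (Algebra.adjoin E (Set.range ((↑) : t → K))) L :=
    (faithfulSMul_iff_algebraMap_injective _ L).mpr hg
  have : Algebra.IsAlgebraic (Algebra.adjoin E (Set.range ((↑) : t → K))) K := hb.isAlgebraic
  let f : K →ₐ[Algebra.adjoin E (Set.range ((↑) : t → K))] L := IsAlgClosed.lift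
  have hf : ∀ e : E, f (algebraMap E K e) = algebraMap E L e := by
    intro e
    have h1 : algebraMap E K e = algebraMap (Algebra.adjoin E (Set.range ((↑) : t → K))) K
      (algebraMap E (Algebra.adjoin E (Set.range ((↑) : t → K))) e) := rfl
    rw [h1, f.commutes]
    exact g.commutes e
  exact ⟨{ f.toRingHom with commutes' := hf }⟩

lemma indep_X {σ E : Type} [Field E] : AlgebraicIndependent E (fun ρ : σ =>
      algebraMap (FractionRing (MvPolynomial σ E))
        (AlgebraicClosure (FractionRing (MvPolynomial σ E)))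
        (algebraMap (MvPolynomial σ E) (FractionRing (MvPolynomial σ E)) (X ρ))) := by
  have h1 : AlgebraicIndependent E (fun ρ : σ => (X ρ : MvPolynomial σ E)) :=
    MvPolynomial.algebraicIndependent_X σ E
  have h3 := h1.map' (f := IsScalarTower.toAlgHom E (MvPolynomial σ E)
    (FractionRing (MvPolynomial σ E))) (IsFractionRing.injective _ _)
  have h4 := h3.map' (f := IsScalarTower.toAlgHom E (FractionRing (MvPolynomial σ E))
    (AlgebraicClosure (FractionRing (MvPolynomial σ E))))
    (algebraMap (FractionRing (MvPolynomial σ E)) _).injective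
  exact h4

/-- The generic point of an irreducible hypersurface. -/
lemma generic {σ E : Type} [Field E] {A : MvPolynomial σ E} (hA : Irreducible A) :
    ∃ (K : Type) (_ : Field K) (_ : Algebra E K) (x : σ → K),
      (∀ P, aeval x P = 0 ↔ A ∣ P) ∧
      Algebra.IsAlgebraic (Algebra.adjoin E (Set.range x)) K := by
  let I : Ideal (MvPolynomial σ E) := Ideal.span {A}
  have hI : I.IsPrime := (Ideal.span_singleton_prime hA.ne_zero).mpr hA.prime
  have : IsDomain (MvPolynomial σ E ⧸ I) := Ideal.Quotient.isDomain I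
  let q : MvPolynomial σ E →ₐ[E] FractionRing (MvPolynomial σ E ⧸ I) :=
    (IsScalarTower.toAlgHom E (MvPolynomial σ E ⧸ I) (FractionRing (MvPolynomial σ E ⧸ I))).comp
      (Ideal.Quotient.mkₐ E I)
  have hq : ∀ P, q P = 0 ↔ A ∣ P := by
    intro P
    change algebraMap (MvPolynomial σ E ⧸ I) (FractionRing (MvPolynomial σ E ⧸ I))
      (Ideal.Quotient.mk I P) = 0 ↔ _
    rw [← Ideal.mem_span_singleton, ← Ideal.Quotient.eq_zero_iff_mem]
    exact (map_eq_zero_iff _ (IsFractionRing.injective _ _))
  have hx : ∀ P, aeval (fun ρ => q (X ρ)) P = q P := by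
    intro P
    have : aeval (fun ρ => q (X ρ)) = q := by
      ext ρ
      simp
    rw [this]
  refine ⟨FractionRing (MvPolynomial σ E ⧸ I), inferInstance, inferInstance,
    fun ρ => q (X ρ), fun P => by rw [hx, hq], ?_⟩
  refine ⟨fun a => ?_⟩
  have hmem : ∀ p : MvPolynomial σ E ⧸ I,
      algebraMap (MvPolynomial σ E ⧸ I) (FractionRing (MvPolynomial σ E ⧸ I)) p
      ∈ Algebra.adjoin E (Set.range fun ρ => q (X ρ)) := by
    intro p
    obtain ⟨P, rfl⟩ := Ideal.Quotient.mk_surjective p
    have h1 : algebraMap (MvPolynomial σ E ⧸ I) (FractionRing (MvPolynomial σ E ⧸ I))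
      (Ideal.Quotient.mk I P) = aeval (fun ρ => q (X ρ)) P := by
      rw [hx]
      rfl
    rw [h1, Algebra.adjoin_range_eq_range_aeval]
    exact ⟨P, rfl⟩
  obtain ⟨p, r, _, rfl⟩ := IsFractionRing.div_surjective (A := MvPolynomial σ E ⧸ I) a
  rw [div_eq_mul_inv]
  exact (isAlgebraic_algebraMap (A := FractionRing (MvPolynomial σ E ⧸ I))
      (⟨_, hmem p⟩ : Algebra.adjoin E (Set.range fun ρ => q (X ρ)))).mul
      (isAlgebraic_algebraMap (A := FractionRing (MvPolynomial σ E ⧸ I))
      (⟨_, hmem r⟩ : Algebra.adjoin E (Set.range fun ρ => q (X ρ)))).inv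

theorem t_GEN : S_GEN := by
  intro σ E _ _ A hA θ hθ
  obtain ⟨K, _, _, x, hx, _⟩ := generic hA
  obtain ⟨f⟩ := embed x _ (indep_X (σ := σ) (E := E))
  refine ⟨fun ρ => f (x ρ), ?_, ?_⟩
  · rw [← MvPolynomial.comp_aeval_apply, (hx A).mpr dvd_rfl, map_zero]
  · rw [← MvPolynomial.comp_aeval_apply]
    intro h0
    exact not_dvd hθ ((hx _).mp ((map_eq_zero_iff f f.toRingHom.injective).mp h0))

end Run7.h669.AC

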