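import Pool.Agent.Run7.h432.AC.Stm

/-!
# MP_4b1745_al: piece STEP

The Taylor morphism is applied once, to the ring of differential polynomials with one unknown for
each nonconstant differential polynomial `P`, so that no normalisation is needed.
-/

set_option autoImplicit false

namespace Run7.h669.AC

open MvPolynomial Run7.h432.AC

lemma isDD_iter {A B : Type*} [CommRing A] [CommRing B] [DD A] [DD B] {ψ : A →+* B}
    (h : IsDD ψ) (i j : ℕ) (a : A) :
    ψ ((DD.d1 : A →+ A)^[i] ((DD.d2 : A →+ A)^[j] a))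
      = (DD.d1 : B →+ B)^[i] ((DD.d2 : B →+ B)^[j] (ψ a)) := by
  have h1 : ∀ (i : ℕ) (a : A), ψ ((DD.d1 : A →+ A)^[i] a) = (DD.d1 : B →+ B)^[i] (ψ a) := by
    intro i
    induction i with
    | zero => intro a; rfl
    | succ i ih =>
        intro a
        rw [Function.iterate_succ_apply', Function.iterate_succ_apply', h.1, ih]
  have h2 : ∀ (j : ℕ) (a : A), ψ ((DD.d2 : A →+ A)^[j] a) = (DD.d2 : B →+ B)^[j] (ψ a) := by
    intro j
    induction j with
    | zero => intro a; rfl
    | succ j ih =>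
        intro a
        rw [Function.iterate_succ_apply', Function.iterate_succ_apply', h.2, ih]
  rw [h1, h2]

lemma iter_X {A : Type*} [CommRing A] [DD A] {S : Type*} (s : S) (i j : ℕ) :
    (DD.d1 : DP A S →+ DP A S)^[i] ((DD.d2 : DP A S →+ DP A S)^[j] (X (s, 0, 0)))
      = X (s, i, j) := by
  have h2 : ∀ j : ℕ, (DD.d2 : DP A S →+ DP A S)^[j] (X (s, 0, 0)) = X (s, 0, j) := by
    intro j
    induction j with
    | zero => rfl
    | succ j ih => rw [Function.iterate_succ_apply', ih, dp_d2_X]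
  rw [h2]
  induction i with
  | zero => rfl
  | succ i ih => rw [Function.iterate_succ_apply', ih, dp_d1_X]

/-- The inclusion of differential polynomials in one unknown as those in the unknown `s`. -/
noncomputable def inS (A : Type*) [CommRing A] {S : Type*} (s : S) : DP A Unit →+* DP A S :=
  (rename (fun v : Unit × ℕ × ℕ => (s, v.2.1, v.2.2))).toRingHom

@[simp] lemma inS_C {A : Type*} [CommRing A] {S : Type*} (s : S) (a : A) :
    inS A s (C a) = C a := by simp [inS]

@[simp] lemma inS_X {A : Type*} [CommRing A] {S : Type*} (s : S) (v : Unit × ℕ × ℕ) :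
    inS A s (X v) = X (s, v.2.1, v.2.2) := by simp [inS]

lemma inS_isDD {A : Type*} [CommRing A] [DD A] {S : Type*} (s : S) : IsDD (inS A s) := by
  constructor
  · intro P
    induction P using MvPolynomial.induction_on with
    | C a => simp
    | add p q hp hq => simp only [map_add, hp, hq]
    | mul_X p n hp =>
      obtain ⟨u, i, j⟩ := n
      rw [DD.mul1 p, map_add, map_mul, map_mul, hp, map_mul, DD.mul1, dp_d1_X, inS_X, inS_X,
        dp_d1_X]
  · intro P
    induction P using MvPolynomial.induction_on with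
    | C a => simp
    | add p q hp hq => simp only [map_add, hp, hq]
    | mul_X p n hp =>
      obtain ⟨u, i, j⟩ := n
      rw [DD.mul2 p, map_add, map_mul, map_mul, hp, map_mul, DD.mul2, dp_d2_X, inS_X, inS_X,
        dp_d2_X]

lemma hom_inS {A B : Type*} [CommRing A] [CommRing B] [DD A] [DD B] {S : Type*}
    {ψ : DP A S →+* B} (h : IsDD ψ) (s : S) (P : DP A Unit) :
    ψ (inS A s P) = subst (ψ.comp C) (fun _ : Unit => ψ (X (s, 0, 0))) P := by
  have h1 : ψ.comp (inS A s) = subst (ψ.comp C) (fun _ : Unit => ψ (X (s, 0, 0))) := by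
    apply MvPolynomial.ringHom_ext
    · intro a
      simp
    · rintro ⟨u, i, j⟩
      rw [RingHom.comp_apply, inS_X]
      simp only [subst, coe_eval₂Hom, eval₂_X, jets]
      rw [← isDD_iter h, iter_X]
  exact RingHom.congr_fun h1 P

lemma exists_factor {σ E : Type} [Field E] {P : MvPolynomial σ E}
    (hP : P ∉ Set.range (C : E → MvPolynomial σ E)) :
    ∃ A : MvPolynomial σ E, Irreducible A ∧ A.vars.Nonempty ∧ A ∣ P := by
  have h0 : P ≠ 0 := by
    rintro rfl
    exact hP ⟨0, by simp⟩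
  have hu : ¬ IsUnit P := by
    intro hu
    rw [MvPolynomial.isUnit_iff_eq_C_of_isReduced] at hu
    obtain ⟨r, _, hr⟩ := hu
    exact hP ⟨r, hr.symm⟩
  obtain ⟨A, hA, hAP⟩ := WfDvdMonoid.exists_irreducible_factor hu h0
  refine ⟨A, hA, ?_, hAP⟩
  rw [Finset.nonempty_iff_ne_empty]
  intro he
  obtain ⟨a, ha⟩ : ∃ a, A = C a := by
    have h1 : A ∈ supported E (∅ : Set σ) := by
      rw [mem_supported, he]
      simp
    rw [supported_empty, Algebra.mem_bot] at h1
    obtain ⟨a, ha⟩ := h1
    exact ⟨a, ha.symm⟩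
  have ha0 : a ≠ 0 := by
    rintro rfl
    exact hA.ne_zero (by rw [ha, C_0])
  exact hA.not_isUnit (by rw [ha]; exact (IsUnit.mk0 a ha0).map C)

theorem t_STEP : S_STEP := by
  intro hGEN hREC hTAY E
  let σ := Unit × ℕ × ℕ
  let L := AlgebraicClosure (FractionRing (DP E.K Unit))
  let S := {P : DP E.K Unit // P ∉ Set.range (C : E.K → DP E.K Unit)}
  have key : ∀ s : S, ∃ A : DP E.K Unit, A ∣ s.1 ∧ ∃ c : Unit × ℕ × ℕ → L, ∀ i j : ℕ,
      eval₂ (algebraMap E.K L) c
        ((DD.d1 : DP E.K Unit →+ DP E.K Unit)^[i]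
          ((DD.d2 : DP E.K Unit →+ DP E.K Unit)^[j] A)) = 0 := by
    intro s
    obtain ⟨A, hA, hv, hAP⟩ := exists_factor s.2
    exact ⟨A, hAP, hREC E.K L (algebraMap E.K L) A hv
      fun θ hθ => hGEN (Unit × ℕ × ℕ) E.K A hA θ hθ⟩
  choose A hAP c hc using key
  let ε : DP E.K S →+* L := eval₂Hom (algebraMap E.K L) (fun v => c v.1 ((), v.2.1, v.2.2))
  have hε : ∀ (s : S) (Q : DP E.K Unit), ε (inS E.K s Q) = eval₂ (algebraMap E.K L) (c s) Q := by
    intro s Q
    have h1 : ε.comp (inS E.K s) = eval₂Hom (algebraMap E.K L) (c s) := by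
      apply MvPolynomial.ringHom_ext
      · intro a
        simp [ε]
      · rintro ⟨u, i, j⟩
        simp [ε]
    exact RingHom.congr_fun h1 Q
  obtain ⟨T, hT, hT0⟩ := hTAY (DP E.K S) L ε
  have hzero : ∀ s : S, T (inS E.K s s.1) = 0 := by
    intro s
    obtain ⟨Q, hQ⟩ := hAP s
    have h1 : T (inS E.K s (A s)) = 0 := by
      rw [hT0]
      intro i j
      rw [← isDD_iter (inS_isDD s), hε, hc]
    rw [hQ, map_mul, map_mul, h1, zero_mul]
  let W := MvPowerSeries (Fin 2) L
  have : NoZeroDivisors W := inferInstanceAs (NoZeroDivisors (MvPowerSeries (Fin 2) L))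
  have : IsDomain W := NoZeroDivisors.to_isDomain W
  have : CharZero (FractionRing W) := by
    exact charZero_of_injective_algebraMap (R := L) (FaithfulSMul.algebraMap_injective L _)
  let E' : DF := ⟨FractionRing W⟩
  have hCd : IsDD (C : E.K →+* DP E.K S) := ⟨fun a => (dp_d1_C a).symm, fun a => (dp_d2_C a).symm⟩
  have hψ : IsDD ((algebraMap W (FractionRing W)).comp T) := (frac_isDD W).comp hT
  refine ⟨E', ((algebraMap W (FractionRing W)).comp T).comp C, hψ.comp hCd, fun P hP => ?_⟩
  refine ⟨((algebraMap W (FractionRing W)).comp T) (X (⟨P, hP⟩, 0, 0)), ?_⟩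
  have h1 := hom_inS hψ (⟨P, hP⟩ : S) P
  have h2 := hzero ⟨P, hP⟩
  rw [← h1, RingHom.comp_apply, h2, map_zero]

end Run7.h669.AC

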